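import Pool.Agent.Lib.MP_671ac3_gt.Main2

/-!
# MP_671ac3_gt, Q1 for all convex polygons

`K` is a convex polygon, `H` any planar convex body, `φ` and `ψ` are any two nonzero members of
the class `Φ²`. If the `φ`-covariogram of `K` is the `ψ`-covariogram of `H`, then `H` is a translate
of `K` or of `-K`.

The plane is `ℝ × ℝ`.
-/

namespace Pool.Agent.Results.MP_671ac3_gt.PolygonAll

/-- The class `Φ²` of the problem: translation invariant, even, monotone valuations on the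
compact convex subsets of the plane (the empty set included) that vanish on the empty set and on
singletons. (A map `φ` is defined on all sets, but only its values on compact convex sets
matter.) -/
structure IsPhi (φ : Set (ℝ × ℝ) → ℝ) : Prop where
  empty : φ ∅ = 0
  val : ∀ A C : Set (ℝ × ℝ), Convex ℝ A → IsCompact A → Convex ℝ C → IsCompact C →
    Convex ℝ (A ∪ C) → φ (A ∪ C) + φ (A ∩ C) = φ A + φ C
  trans : ∀ (A : Set (ℝ × ℝ)) (t : ℝ × ℝ), Convex ℝ A → IsCompact A →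
    φ ((fun z => z + t) '' A) = φ A
  even : ∀ A : Set (ℝ × ℝ), Convex ℝ A → IsCompact A → φ ((fun z => -z) '' A) = φ A
  mono : ∀ A C : Set (ℝ × ℝ), Convex ℝ A → IsCompact A → Convex ℝ C → IsCompact C →
    A ⊆ C → φ A ≤ φ C
  sing : ∀ z : ℝ × ℝ, φ {z} = 0

/-- `φ` is not identically zero on the compact convex sets. -/
def NonZero (φ : Set (ℝ × ℝ) → ℝ) : Prop :=
  ∃ A : Set (ℝ × ℝ), Convex ℝ A ∧ IsCompact A ∧ φ A ≠ 0

/-- The `φ`-covariogram `x ↦ φ (K ∩ (K + x))` of `K`. -/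
def cov (φ : Set (ℝ × ℝ) → ℝ) (K : Set (ℝ × ℝ)) (x : ℝ × ℝ) : ℝ :=
  φ (K ∩ (fun z => z + x) '' K)

theorem IsPhi.phi {φ : Set (ℝ × ℝ) → ℝ} (h : IsPhi φ) : Pool.MP671.IsPhi φ where
  empty := h.empty
  val := fun A C hA hC hAC => h.val A C hA.1 hA.2 hC.1 hC.2 hAC.1
  trans := fun A t hA => h.trans A t hA.1 hA.2
  even := fun A hA => h.even A hA.1 hA.2
  mono := fun A C hA hC hAC => h.mono A C hA.1 hA.2 hC.1 hC.2 hAC
  sing := h.sing

/-- A convex polygon `K` is determined, among all planar convex bodies and up to translations and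
point reflections, by its `φ`-covariogram with unknown `φ`. -/
theorem result
    (S : Finset (ℝ × ℝ)) (K : Set (ℝ × ℝ)) (hK : K = convexHull ℝ (S : Set (ℝ × ℝ)))
    (hKi : (interior K).Nonempty)
    (H : Set (ℝ × ℝ)) (hHc : Convex ℝ H) (hHk : IsCompact H) (hHi : (interior H).Nonempty)
    (φ ψ : Set (ℝ × ℝ) → ℝ) (hφ : IsPhi φ) (hψ : IsPhi ψ) (hφ0 : NonZero φ) (hψ0 : NonZero ψ)
    (hcov : ∀ x : ℝ × ℝ, cov φ K x = cov ψ H x) :
    ∃ t : ℝ × ℝ, H = (fun z => z + t) '' K ∨ H = (fun z => -z + t) '' K := by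
  obtain ⟨A, hA, hA', hA0⟩ := hφ0
  obtain ⟨B, hB, hB', hB0⟩ := hψ0
  obtain ⟨t, ht | ht⟩ := Pool.MP671.final2 K H φ ψ hφ.phi hψ.phi ⟨A, ⟨hA, hA'⟩, hA0⟩
    ⟨B, ⟨hB, hB'⟩, hB0⟩ ⟨S, hK⟩ hKi ⟨hHc, hHk⟩ hHi hcov
  · exact ⟨t, Or.inl ht⟩
  · refine ⟨t, Or.inr ?_⟩
    rw [ht, Pool.MP671.tr, Pool.MP671.refl, Set.image_image]

end Pool.Agent.Results.MP_671ac3_gt.PolygonAll
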