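import Pool.Agent.Lib.MP_671ac3_gt.C3.Main

/-!
# MP_671ac3_gt, Q1 for all planar convex bodies of class C²₊

`K` and `H` are planar convex bodies of class `C²₊` (twice continuously differentiable support
function, positive radius of curvature), `φ` and `ψ` are any two nonzero members of the class `Φ²`.
If the `φ`-covariogram of `K` is the `ψ`-covariogram of `H`, then `H` is a translate of `K` or of
`-K`.

The plane is `ℝ × ℝ`.
-/

namespace Pool.Agent.Results.MP_671ac3_gt.SmoothBodies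

open Real

/-- The class `Φ²` of the problem: translation invariant, even, monotone valuations on the
compact convex subsets of the plane (the empty set included) that vanish on the empty set and on
singletons. (A map `φ` is defined on all sets, but only its values on compact convex sets
matter.) -/
structure IsPhi (φ : Set (ℝ × ℝ) → ℝ) : Prop where
  empty : φ ∅ = 0
  val : ∀ A C : Set (ℝ × ℝ), Convex ℝ A → IsCompact A → Convex ℝ C → IsCompact C →
    Convex ℝ (A ∪ C) → φ (A ∪ C) + φ (A ∩ C) = φ A + φ C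
  trans : ∀ (A : Set (ℝ × ℝ)) (t : ℝ × ℝ), Convex ℝ A → IsCompact A →
    φ ((fun z => z + t) '' A) = φ A
  even : ∀ A : Set (ℝ × ℝ), Convex ℝ A → IsCompact A → φ ((fun z => -z) '' A) = φ A
  mono : ∀ A C : Set (ℝ × ℝ), Convex ℝ A → IsCompact A → Convex ℝ C → IsCompact C →
    A ⊆ C → φ A ≤ φ C
  sing : ∀ z : ℝ × ℝ, φ {z} = 0

/-- `φ` is not identically zero on the compact convex sets. -/
def NonZero (φ : Set (ℝ × ℝ) → ℝ) : Prop :=
  ∃ A : Set (ℝ × ℝ), Convex ℝ A ∧ IsCompact A ∧ φ A ≠ 0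

/-- The `φ`-covariogram `x ↦ φ (K ∩ (K + x))` of `K`. -/
def cov (φ : Set (ℝ × ℝ) → ℝ) (K : Set (ℝ × ℝ)) (x : ℝ × ℝ) : ℝ :=
  φ (K ∩ (fun z => z + x) '' K)

/-- `K` is a planar convex body of class `C²₊`: it is the set with the support function `h` (as a
function of the angle of the outer normal), where `h` is a `2π`-periodic function of class `C²` whose
radius of curvature `h + h''` is positive. -/
def C2plus (K : Set (ℝ × ℝ)) : Prop :=
  ∃ h : ℝ → ℝ, ContDiff ℝ 2 h ∧ (∀ θ, h (θ + 2 * π) = h θ) ∧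
    (∀ θ, 0 < h θ + deriv (deriv h) θ) ∧
    K = {z : ℝ × ℝ | ∀ θ : ℝ, z.1 * cos θ + z.2 * sin θ ≤ h θ}

theorem IsPhi.phi {φ : Set (ℝ × ℝ) → ℝ} (h : IsPhi φ) : Pool.MP671.IsPhi φ where
  empty := h.empty
  val := fun A C hA hC hAC => h.val A C hA.1 hA.2 hC.1 hC.2 hAC.1
  trans := fun A t hA => h.trans A t hA.1 hA.2
  even := fun A hA => h.even A hA.1 hA.2
  mono := fun A C hA hC hAC => h.mono A C hA.1 hA.2 hC.1 hC.2 hAC
  sing := h.sing

/-- A planar convex body of class `C²₊` is determined, among all planar convex bodies of class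
`C²₊` and up to translations and point reflections, by its `φ`-covariogram with unknown `φ`. -/
theorem result (K H : Set (ℝ × ℝ)) (hK : C2plus K) (hH : C2plus H)
    (φ ψ : Set (ℝ × ℝ) → ℝ) (hφ : IsPhi φ) (hψ : IsPhi ψ) (hφ0 : NonZero φ) (hψ0 : NonZero ψ)
    (hcov : ∀ x : ℝ × ℝ, cov φ K x = cov ψ H x) :
    ∃ t : ℝ × ℝ, H = (fun z => z + t) '' K ∨ H = (fun z => -z + t) '' K := by
  obtain ⟨h, h2, hp, hr, rfl⟩ := hK
  obtain ⟨k, k2, kp, kr, rfl⟩ := hH
  obtain ⟨A, hA, hA', hA0⟩ := hφ0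
  obtain ⟨B, hB, hB', hB0⟩ := hψ0
  obtain ⟨t, ht | ht⟩ := Pool.MP671.final3 h k φ ψ ⟨h2, hp, hr⟩ ⟨k2, kp, kr⟩ hφ.phi hψ.phi
    ⟨A, ⟨hA, hA'⟩, hA0⟩ ⟨B, ⟨hB, hB'⟩, hB0⟩ hcov
  · exact ⟨t, Or.inl ht⟩
  · refine ⟨t, Or.inr ?_⟩
    show Pool.MP671.bd k = _
    rw [ht, Pool.MP671.tr, Pool.MP671.refl, Set.image_image]
    rfl

end Pool.Agent.Results.MP_671ac3_gt.SmoothBodies
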